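import Pool.Agent.H66.OCWalshJoin

/-!
# Oriented cycle double covers and the Fano plane

Jaeger's 8-flow theorem gives every graph without cut edges seven even subgraphs, indexed by the
points of the Fano plane, such that the three which do not contain a given edge form a line; so every
edge is in exactly four of them.  We show that there are directed even subgraphs of this kind which
traverse every edge exactly twice in each direction if and only if the graph has an oriented cycle
double cover with seven classes, and we prove the analogue for `2 ^ r` classes and hence for oriented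
cycle double covers with any number of classes.
-/

set_option autoImplicit false

namespace Pool.Agent.Results.MP_781dd6_co.FanoDuality

open Pool.Agent.H66.OC Pool.Agent.Q253.OR Pool.Agent.Q253.OD

open scoped Classical in
/-- how often the closed walks in the list traverse the arc from `u` to `v` -/
noncomputable def traversals {V : Type} {G : SimpleGraph V} (C : List (Σ v : V, G.Walk v v))
    (u v : V) : ℕ :=
  (C.map (fun c => (c.2.darts.filter (fun d => decide (d.toProd = (u, v)))).length)).sum

/-- some list of directed cycles of `G`, of length at least 3, traverses every edge of `G` exactly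
once in each direction -/
def HasOrientedDoubleCover {V : Type} (G : SimpleGraph V) : Prop :=
  ∃ C : List (Σ v : V, G.Walk v v), (∀ c ∈ C, c.2.IsCycle) ∧
    ∀ u v : V, G.Adj u v → traversals C u v = 1

/-- `n` families of directed cycles of `G`, of length at least 3: no family traverses an edge more
than once in total, and every edge of `G` is traversed exactly once in each direction -/
def HasClasses {V : Type} (G : SimpleGraph V) (n : ℕ) : Prop :=
  ∃ C : Fin n → List (Σ v : V, G.Walk v v), (∀ i, ∀ c ∈ C i, c.2.IsCycle) ∧
    (∀ i u v, G.Adj u v → traversals (C i) u v + traversals (C i) v u ≤ 1) ∧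
    ∀ u v, G.Adj u v → ∑ i, traversals (C i) u v = 1

/-- `A` is the arc set of a directed even subgraph of `G`: it contains no two opposite arcs, and every
vertex has as many outgoing as ingoing arcs in `A` -/
def DirectedEven {V : Type} (G : SimpleGraph V) (A : V → V → Prop) : Prop :=
  (∀ u v, A u v → G.Adj u v ∧ ¬ A v u) ∧ ∀ v, {w | A v w}.ncard = {w | A w v}.ncard

/-- the arc set `A` contains an arc of the edge `uv` -/
def Uses {V : Type} (A : V → V → Prop) (u v : V) : Prop := A u v ∨ A v u

/-- directed even subgraphs `D l`, one for each `l` in `F₂^r`, such that for every edge `uv`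
(1) the `l` for which `D l` uses `uv` are the solutions of `l · x = 1`, for some nonzero `x`, and
(2) for all `a`, `b`, `c` whose subgraphs use `uv`, an even number of the subgraphs with the indices
`a`, `b`, `c`, `a + b + c` traverse it from `u` to `v`. -/
def EvenSystem {V : Type} (G : SimpleGraph V) {r : ℕ} (D : (Fin r → ZMod 2) → V → V → Prop) :
    Prop :=
  (∀ l, DirectedEven G (D l)) ∧ ∀ u v, G.Adj u v →
    (∃ x : Fin r → ZMod 2, x ≠ 0 ∧ ∀ l, Uses (D l) u v ↔ l ⬝ᵥ x = 1) ∧
    ∀ a b c, Uses (D a) u v → Uses (D b) u v → Uses (D c) u v →
      ((D a u v ↔ D b u v) ↔ (D c u v ↔ D (a + b + c) u v))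

/-- seven directed even subgraphs such that every edge is traversed by exactly two of them in each
direction, and the three which do not use the edge have the indices `j`, `j + 1`, `j + 3` modulo 7 for
some `j`, a line of the Fano plane -/
def FanoSystem {V : Type} (G : SimpleGraph V) (A : Fin 7 → V → V → Prop) : Prop :=
  (∀ p, DirectedEven G (A p)) ∧ ∀ u v, G.Adj u v →
    {p | A p u v}.ncard = 2 ∧
    ∃ j : Fin 7, ∀ p, ¬ Uses (A p) u v ↔ p = j ∨ p = j + 1 ∨ p = j + 3

/-- Let `G` be a finite simple graph.
(1) `G` has an oriented cycle double cover with seven classes if and only if it has seven directed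
even subgraphs such that every edge is traversed by exactly two of them in each direction and the
three which do not use it form a line of the Fano plane.
(2) `G` has an oriented cycle double cover with `2 ^ r` classes if and only if it has an even system
indexed by `F₂^r`.
(3) `G` has an oriented cycle double cover if and only if it has an even system for some `r`. -/
theorem result : ∀ (V : Type) [Fintype V] (G : SimpleGraph V),
    (HasClasses G 7 ↔ ∃ A : Fin 7 → V → V → Prop, FanoSystem G A) ∧
    (∀ r : ℕ, HasClasses G (2 ^ r) ↔
      ∃ D : (Fin r → ZMod 2) → V → V → Prop, EvenSystem G D) ∧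
    (HasOrientedDoubleCover G ↔
      ∃ (r : ℕ) (D : (Fin r → ZMod 2) → V → V → Prop), EvenSystem G D) := by
  intro V _ G
  have hW : ∀ (r : ℕ) (D : (Fin r → ZMod 2) → V → V → Prop), Walsh G D ↔ EvenSystem G D := by
    intro r D
    constructor
    · intro h
      exact ⟨fun l => ⟨fun u v hd => ⟨h.adj l u v hd, h.anti l u v hd⟩, h.bal l⟩,
        fun u v huv => ⟨h.hyp u v huv, h.par u v huv⟩⟩
    · intro h
      exact ⟨fun l u v hd => ((h.1 l).1 u v hd).1, fun l u v hd => ((h.1 l).1 u v hd).2,
        fun l => (h.1 l).2, fun u v huv => (h.2 u v huv).1, fun u v huv => (h.2 u v huv).2⟩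
  have hF : ∀ A : Fin 7 → V → V → Prop, Fano G A ↔ FanoSystem G A := by
    intro A
    have key : ∀ u v, (∀ j : Fin 7, (∀ p, (¬ A p u v ∧ ¬ A p v u) ↔ OnLine j p) ↔
        ∀ p, ¬ Uses (A p) u v ↔ p = j ∨ p = j + 1 ∨ p = j + 3) := by
      intro u v j
      unfold Uses OnLine
      simp only [not_or]
    constructor
    · intro h
      refine ⟨fun p => ⟨h.adj p, h.bal p⟩, fun u v huv => ⟨h.two u v huv, ?_⟩⟩
      obtain ⟨j, hj⟩ := h.line u v huv
      exact ⟨j, (key u v j).1 hj⟩
    · intro h
      refine ⟨fun p => (h.1 p).1, fun p => (h.1 p).2, fun u v huv => (h.2 u v huv).1,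
        fun u v huv => ?_⟩
      obtain ⟨j, hj⟩ := (h.2 u v huv).2
      exact ⟨j, (key u v j).2 hj⟩
  refine ⟨?_, fun r => ?_, ?_⟩
  · simp only [← hF]
    constructor
    · exact fun h => fano_of_fam h
    · rintro ⟨A, hA⟩
      exact fam_of_fano hA
  · simp only [← hW]
    have e : (Fin r → ZMod 2) ≃ Fin (2 ^ r) :=
      Fintype.equivFinOfCardEq (by rw [Fintype.card_fun, ZMod.card, Fintype.card_fin])
    rw [← famK_iff_walsh]
    exact ⟨fun h => FamK.congr e.symm h, fun h => FamK.congr e h⟩
  · simp only [← hW]
    exact oc_iff_walsh G

end Pool.Agent.Results.MP_781dd6_co.FanoDuality
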