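import Pool.Agent.H66.OCParity

/-!
# Oriented cycle double covers of cubic graphs with five classes

A cubic graph has an oriented cycle double cover with five classes if and only if some system of
disjoint circuits (colour 0) and some proper 3-edge-colouring of the remaining edges satisfy a parity
condition which does not mention any orientation: every circuit avoiding one of the colours 1, 2, 3
passes through an even number of vertices not incident with this colour.
-/

set_option autoImplicit false

namespace Pool.Agent.Results.MP_781dd6_co.FiveClasses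

open Pool.Agent.H66.OC Pool.Agent.Q253.OR Pool.Agent.Q253.OD

/-- no edge of `G` is a cut edge -/
def NoCutEdge {V : Type} (G : SimpleGraph V) : Prop :=
  ∀ u v : V, G.Adj u v → (G.deleteEdges {s(u, v)}).Reachable u v

open scoped Classical in
/-- how often the closed walks in the list traverse the arc from `u` to `v` -/
noncomputable def traversals {V : Type} {G : SimpleGraph V} (C : List (Σ v : V, G.Walk v v))
    (u v : V) : ℕ :=
  (C.map (fun c => (c.2.darts.filter (fun d => decide (d.toProd = (u, v)))).length)).sum

/-- some list of directed cycles of `G`, of length at least 3, traverses every edge of `G` exactly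
once in each direction -/
def HasOrientedDoubleCover {V : Type} (G : SimpleGraph V) : Prop :=
  ∃ C : List (Σ v : V, G.Walk v v), (∀ c ∈ C, c.2.IsCycle) ∧
    ∀ u v : V, G.Adj u v → traversals C u v = 1

/-- five families of directed cycles of `G`, of length at least 3: no family traverses an edge more
than once in total, and every edge of `G` is traversed exactly once in each direction -/
def HasFiveClasses {V : Type} (G : SimpleGraph V) : Prop :=
  ∃ C : Fin 5 → List (Σ v : V, G.Walk v v), (∀ i, ∀ c ∈ C i, c.2.IsCycle) ∧
    (∀ i u v, G.Adj u v → traversals (C i) u v + traversals (C i) v u ≤ 1) ∧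
    ∀ u v, G.Adj u v → ∑ i, traversals (C i) u v = 1

/-- the edges of `G` are coloured with `0, 1, 2, 3` such that the edges of each of the colours
`1, 2, 3` are disjoint, and every vertex is incident with no or with exactly two edges of colour `0` -/
structure Coloured {V : Type} (G : SimpleGraph V) (c : Sym2 V → Fin 4) : Prop where
  /-- different edges of the same colour with a common end have colour `0` -/
  same : ∀ v a b, G.Adj v a → G.Adj v b → a ≠ b → c s(v, a) = c s(v, b) → c s(v, a) = 0
  /-- each vertex has no or exactly two edges of colour `0` -/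
  zero : ∀ v, {w | G.Adj v w ∧ c s(v, w) = 0}.ncard = 0 ∨ {w | G.Adj v w ∧ c s(v, w) = 0}.ncard = 2

/-- the vertex `v` is not incident with an edge of colour `i` -/
def Misses {V : Type} (G : SimpleGraph V) (c : Sym2 V → Fin 4) (i : Fin 4) (v : V) : Prop :=
  ∀ w, G.Adj v w → c s(v, w) ≠ i

/-- `o` is an orientation of the edges of the colours different from `i` such that the vertices which
miss the colour `i` are sources or sinks, and all other vertices have one ingoing and one outgoing
edge.  (So the graph of these edges consists of circuits and of a subdivision of a cubic bipartite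
graph.) -/
structure SourcesSinks {V : Type} (G : SimpleGraph V) (c : Sym2 V → Fin 4) (i : Fin 4)
    (o : V → V → Prop) : Prop where
  /-- every edge of a colour different from `i` has one direction -/
  anti : ∀ u v, G.Adj u v → c s(u, v) ≠ i → (o u v ↔ ¬ o v u)
  /-- two such edges at `v` are both outgoing or both ingoing if and only if `v` misses `i` -/
  alt : ∀ v a b, G.Adj v a → G.Adj v b → a ≠ b → c s(v, a) ≠ i → c s(v, b) ≠ i →
    ((o v a ↔ o v b) ↔ Misses G c i v)

/-- every circuit without edges of colour `i` passes through an even number of vertices which miss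
the colour `i` -/
def EvenlyMissed {V : Type} (G : SimpleGraph V) (c : Sym2 V → Fin 4) (i : Fin 4) : Prop :=
  ∀ (x : V) (p : G.Walk x x), p.IsCycle → (∀ e ∈ p.edges, c e ≠ i) →
    Even {v | v ∈ p.support ∧ Misses G c i v}.ncard

/-- 3-edge-connected cubic graphs without cycles of length less than `g` and without 3-edge-colouring
which become bipartite when at most `ε |V|` edges are deleted, any two of them at distance at least
`g` -/
structure Nice (g : ℕ) (ε : ℝ) {V : Type} (H : SimpleGraph V) : Prop where
  /-- every vertex has three neighbours -/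
  cubic : ∀ v, (H.neighborSet v).ncard = 3
  /-- at least three edges leave every vertex set other than `∅` and `V` -/
  conn : ∀ X : Set V, X.Nonempty → Xᶜ.Nonempty →
    3 ≤ {e : Sym2 V | ∃ x y, x ∈ X ∧ y ∉ X ∧ H.Adj x y ∧ e = s(x, y)}.ncard
  /-- the cycles have at least `g` edges -/
  girth : ∀ (v : V) (c : H.Walk v v), c.IsCycle → g ≤ c.length
  /-- deleting the edges in `F` leaves a bipartite graph, with the vertices in `B` on one side -/
  nearly : ∃ F : Set (Sym2 V), F ⊆ H.edgeSet ∧ (F.ncard : ℝ) ≤ ε * Nat.card V ∧
    (∀ e ∈ F, ∀ f ∈ F, e ≠ f → ∀ x ∈ e, ∀ y ∈ f, ∀ p : H.Walk x y, g ≤ p.length) ∧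
    ∃ B : Set V, ∀ u v, H.Adj u v → s(u, v) ∉ F → (u ∈ B ↔ v ∉ B)
  /-- there is no colouring of the edges with three colours such that different edges with a common
  end have different colours -/
  snark : ¬ ∃ c : Sym2 V → Fin 3, ∀ e ∈ H.edgeSet, ∀ f ∈ H.edgeSet, e ≠ f →
    (∃ v, v ∈ e ∧ v ∈ f) → c e ≠ c f

/-- (1) Let `c` be a colouring of a finite cubic graph `G` as in `Coloured` and `i` one of the colours
`1, 2, 3`.  Then every circuit avoiding the colour `i` passes through an even number of vertices which
miss `i` if and only if the edges of the other three colours can be oriented such that the vertices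
which miss `i` are sources or sinks and the other ones are neither.
(2) A finite cubic graph has an oriented cycle double cover with five classes if and only if it has a
colouring `c` as in `Coloured` such that, for `i = 1, 2, 3`, every circuit avoiding the colour `i`
passes through an even number of vertices which miss `i`.
(3) Let `g` be a natural number and `ε > 0`.  If every graph in `Nice g ε` has such a colouring then
every finite simple graph without cut edges has an oriented cycle double cover. -/
theorem result :
    (∀ (V : Type) [Fintype V] (G : SimpleGraph V), (∀ v, (G.neighborSet v).ncard = 3) →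
      (∀ c, Coloured G c → ∀ i, i ≠ 0 → (EvenlyMissed G c i ↔ ∃ o, SourcesSinks G c i o)) ∧
      (HasFiveClasses G ↔ ∃ c, Coloured G c ∧ ∀ i, i ≠ 0 → EvenlyMissed G c i)) ∧
    ∀ (g : ℕ) (ε : ℝ), 0 < ε →
      (∀ (V : Type) [Fintype V] (H : SimpleGraph V), Nice g ε H →
        ∃ c, Coloured H c ∧ ∀ i, i ≠ 0 → EvenlyMissed H c i) →
      ∀ (V : Type) [Fintype V] (G : SimpleGraph V), NoCutEdge G → HasOrientedDoubleCover G := by
  have conv : ∀ (V : Type) (G : SimpleGraph V) (c : Sym2 V → Fin 4),
      Coloured G c ↔ FourColoured G c := fun V G c => ⟨fun h => ⟨h.1, h.2⟩, fun h => ⟨h.1, h.2⟩⟩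
  have conv2 : ∀ (V : Type) (G : SimpleGraph V) (c : Sym2 V → Fin 4) (i : Fin 4) (o : V → V → Prop),
      SourcesSinks G c i o ↔ Alternating G c i o :=
    fun V G c i o => ⟨fun h => ⟨h.1, h.2⟩, fun h => ⟨h.1, h.2⟩⟩
  have key : ∀ (V : Type) [Fintype V] (G : SimpleGraph V), (∀ v, (G.neighborSet v).ncard = 3) →
      (HasFiveClasses G ↔ ∃ c, Coloured G c ∧ ∀ i, i ≠ 0 → EvenlyMissed G c i) := by
    intro V _ G h3
    obtain ⟨C⟩ := exists_cub G h3
    simp only [conv]
    exact five_circ_iff C
  refine ⟨fun V _ G h3 => ⟨fun c hc i hi => ?_, key V G h3⟩, ?_⟩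
  · obtain ⟨C⟩ := exists_cub G h3
    obtain ⟨r, hr, -⟩ := exists_order V
    rw [conv] at hc
    simp only [conv2]
    constructor
    · intro h
      exact alt_of_even C c i r hr hi hc (fun Z hZ => even_of_circ h _ Z rfl hZ)
    · rintro ⟨o, ho⟩
      exact circ_of_even (fun Z hZ => even_of_alt ho hZ)
  · intro g ε hε h V _ G hG
    exact final g ε hε (fun V _ H h1 h2 h3 h4 h5 =>
      families_join ((key V H h1).2 (h V H ⟨h1, h2, h3, h4, h5⟩))) V G hG

end Pool.Agent.Results.MP_781dd6_co.FiveClasses
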