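import Pool.Agent.H66.SX.Factor

/-!
Orientable five cycle double covers of cubic graphs from many disjoint circuits of length at most
six.

Proof. A flow with values in `F2 x F2` which vanishes only on the circuits `Q i` is a proper
colouring with three colours off the circuits such that around each circuit the three colours occur
with the same parity (the word of the circuit). Among all choices of a set of circuits and of such a
colouring off these circuits take one with the least number of circuits; then no word extends to
the circuit. Fix a colour `t`, and a circuit. The paths in the other two colours link its positions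
into blocks (two positions are in one block if they are joined by such paths and by other circuits).
Within a block any two positions can be switched without changing the number of circuits, and a
whole block of two positions can be switched in such a way that the words of all other circuits
keep their colour patterns. A finite check over the words of length at most six shows that a
circuit with a bad word can be given a good one by a switch of the second kind, and that all
blocks of a good word have two elements and are not twisted. This gives signs at the circuits such
that the ends of each path get opposite signs, and with signs for the three colours one gets three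
auxiliary integer flows which, together with a flow around the circuits, assemble to five oriented
classes. For circuits which contain all vertices the flow comes from Jaeger's theorem on the
contraction.
-/

set_option autoImplicit false

namespace Pool.Agent.Results.MP_781dd6_co.SixCircuits

open scoped Classical in
/-- Let `G` be a finite cubic simple graph with pairwise disjoint cycles `Q 0, ..., Q (m - 1)` of
lengths at most six. Assume one of the following.
(a) The edges of `G` carry a flow with values in `Z2 x Z2` which is nonzero on every edge that
belongs to no `Q i`.
(b) Every vertex lies on some `Q i`, and no edge cut that contains no edge of the cycles `Q i` has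
exactly one or exactly three edges.
(c) Every vertex lies on some `Q i`, and `G` is cyclically 4-edge-connected: for every edge cut with
at most three edges one of its sides induces a graph without cycles.
Then there are five families of directed cycles, the members of one family being disjoint, such
that every edge is traversed exactly once in each direction. -/
theorem result :
    ∀ (V : Type) [Fintype V] (G : SimpleGraph V), (∀ v, (G.neighborSet v).ncard = 3) →
      ∀ (m : ℕ) (x : Fin m → V) (Q : ∀ i, G.Walk (x i) (x i)), (∀ i, (Q i).IsCycle) →
      (∀ i, (Q i).length ≤ 6) →
      (∀ i j, i ≠ j → ∀ v, v ∈ (Q i).support → v ∉ (Q j).support) →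
      ((∃ φ : Sym2 V → ZMod 2 × ZMod 2,
        (∀ v, ∑ w, (if G.Adj v w then φ s(v, w) else 0) = 0) ∧
        ∀ u v, G.Adj u v → (∀ i, s(u, v) ∉ (Q i).edges) → φ s(u, v) ≠ 0) ∨
      ((∀ v, ∃ i, v ∈ (Q i).support) ∧
        ∀ X : Set V, (∀ i u v, s(u, v) ∈ (Q i).edges → (u ∈ X ↔ v ∈ X)) →
          {p : V × V | G.Adj p.1 p.2 ∧ p.1 ∈ X ∧ p.2 ∉ X}.ncard ≠ 1 ∧
          {p : V × V | G.Adj p.1 p.2 ∧ p.1 ∈ X ∧ p.2 ∉ X}.ncard ≠ 3) ∨
      ((∀ v, ∃ i, v ∈ (Q i).support) ∧
        ∀ X : Set V, {p : V × V | G.Adj p.1 p.2 ∧ p.1 ∈ X ∧ p.2 ∉ X}.ncard < 4 →
          (G.induce X).IsAcyclic ∨ (G.induce Xᶜ).IsAcyclic)) →
      ∃ C : Fin 5 → List (Σ v : V, G.Walk v v), (∀ i, ∀ c ∈ C i, c.2.IsCycle) ∧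
        (∀ i v, ((C i).map (fun c =>
          (c.2.darts.filter (fun d => decide (d.fst = v))).length)).sum ≤ 1) ∧
        ∀ u v, G.Adj u v → ∑ i, ((C i).map (fun c =>
          (c.2.darts.filter (fun d => decide (d.toProd = (u, v)))).length)).sum = 1 := by
  intro V _ G h3 m x Q hQ h6 hd h
  exact Pool.Agent.H66.SX.many_short_circuits G h3 m x Q hQ h6 hd h

end Pool.Agent.Results.MP_781dd6_co.SixCircuits
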