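import Pool.Agent.H66.OCRoots

/-!
# Oriented cycle double covers and flows modulo two

An oriented cycle double cover of a cubic graph induces a nowhere-zero flow `x` with values in
`F₂^k` (label the cycles; the value on an edge is the difference of the two labels).  Conversely, a
given flow `x` comes from an oriented cover if and only if, for every flow `y` for which the scalar
products `x_e y_f` are symmetric at every vertex, the number of the vertices at which they form a
nonsingular matrix is even.  Hence the oriented cycle double cover conjecture is equivalent to a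
statement in which no orientation occurs.
-/

set_option autoImplicit false

namespace Pool.Agent.Results.MP_781dd6_co.SymmetricFlows

open Pool.Agent.H66.OC Pool.Agent.Q253.OR Pool.Agent.Q253.OD

/-- no edge of `G` is a cut edge -/
def NoCutEdge {V : Type} (G : SimpleGraph V) : Prop :=
  ∀ u v : V, G.Adj u v → (G.deleteEdges {s(u, v)}).Reachable u v

open scoped Classical in
/-- some list of directed cycles of `G`, of length at least 3, traverses every edge of `G` exactly
once in each direction -/
def HasOrientedDoubleCover {V : Type} (G : SimpleGraph V) : Prop :=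
  ∃ C : List (Σ v : V, G.Walk v v), (∀ c ∈ C, c.2.IsCycle) ∧
    ∀ u v : V, G.Adj u v →
      (C.map (fun c => (c.2.darts.filter (fun d => decide (d.toProd = (u, v)))).length)).sum = 1

/-- `x` is a nowhere-zero flow of `G` with values in `F₂^k` -/
def NowhereZeroFlow {V : Type} [Fintype V] (G : SimpleGraph V) {k : ℕ}
    (x : Sym2 V → Fin k → ZMod 2) : Prop :=
  Flow2 G x ∧ ∀ u v, G.Adj u v → x s(u, v) ≠ 0

/-- every flow `y` which is symmetric to `x` has an even number of nonsingular vertices -/
def AllEven {V : Type} [Fintype V] (G : SimpleGraph V) {k : ℕ}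
    (x : Sym2 V → Fin k → ZMod 2) : Prop :=
  ∀ y : Sym2 V → Fin k → ZMod 2, Flow2 G y → SymmetricTo G x y →
    Even {v | NonsingularAt G x y v}.ncard

/-- 3-edge-connected cubic graphs without cycles of length less than `g` and without 3-edge-colouring
which become bipartite when at most `ε |V|` edges are deleted, any two of them at distance at least
`g` -/
structure Nice (g : ℕ) (ε : ℝ) {V : Type} (H : SimpleGraph V) : Prop where
  /-- every vertex has three neighbours -/
  cubic : ∀ v, (H.neighborSet v).ncard = 3
  /-- at least three edges leave every vertex set other than `∅` and `V` -/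
  conn : ∀ X : Set V, X.Nonempty → Xᶜ.Nonempty →
    3 ≤ {e : Sym2 V | ∃ x y, x ∈ X ∧ y ∉ X ∧ H.Adj x y ∧ e = s(x, y)}.ncard
  /-- the cycles have at least `g` edges -/
  girth : ∀ (v : V) (c : H.Walk v v), c.IsCycle → g ≤ c.length
  /-- deleting the edges in `F` leaves a bipartite graph, with the vertices in `B` on one side -/
  nearly : ∃ F : Set (Sym2 V), F ⊆ H.edgeSet ∧ (F.ncard : ℝ) ≤ ε * Nat.card V ∧
    (∀ e ∈ F, ∀ f ∈ F, e ≠ f → ∀ x ∈ e, ∀ y ∈ f, ∀ p : H.Walk x y, g ≤ p.length) ∧
    ∃ B : Set V, ∀ u v, H.Adj u v → s(u, v) ∉ F → (u ∈ B ↔ v ∉ B)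
  /-- there is no colouring of the edges with three colours such that different edges with a common
  end have different colours -/
  snark : ¬ ∃ c : Sym2 V → Fin 3, ∀ e ∈ H.edgeSet, ∀ f ∈ H.edgeSet, e ≠ f →
    (∃ v, v ∈ e ∧ v ∈ f) → c e ≠ c f

/-- (1) Let `G` be a finite cubic graph and `x` a nowhere-zero flow with values in `F₂^k`.  The
associated digraph decomposes into directed cycles labelled by elements of `F₂^k` such that the two
labels at every edge differ by the value of `x` if and only if every flow `y` symmetric to `x` has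
an even number of nonsingular vertices.
(2) A finite cubic graph has an oriented cycle double cover if and only if some such flow `x` has
this property.
(3) For all `g` and `ε > 0`, every finite simple graph without cut edges has an oriented cycle double
cover if and only if all the cubic graphs in `Nice g ε` have such a flow. -/
theorem result :
    (∀ (V : Type) [Fintype V] (G : SimpleGraph V), (∀ v, (G.neighborSet v).ncard = 3) →
      (∀ (k : ℕ) (x : Sym2 V → Fin k → ZMod 2), NowhereZeroFlow G x →
        (LabelledCover G x ↔ AllEven G x)) ∧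
      (HasOrientedDoubleCover G ↔
        ∃ (k : ℕ) (x : Sym2 V → Fin k → ZMod 2), NowhereZeroFlow G x ∧ AllEven G x)) ∧
    ∀ (g : ℕ) (ε : ℝ), 0 < ε →
      ((∀ (V : Type) [Fintype V] (G : SimpleGraph V), NoCutEdge G → HasOrientedDoubleCover G) ↔
        ∀ (V : Type) [Fintype V] (H : SimpleGraph V), Nice g ε H →
          ∃ (k : ℕ) (x : Sym2 V → Fin k → ZMod 2), NowhereZeroFlow H x ∧ AllEven H x) := by
  have key : ∀ (V : Type) [Fintype V] (G : SimpleGraph V), (∀ v, (G.neighborSet v).ncard = 3) →
      (HasOrientedDoubleCover G ↔
        ∃ (k : ℕ) (x : Sym2 V → Fin k → ZMod 2), NowhereZeroFlow G x ∧ AllEven G x) := by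
    intro V _ G h3
    refine (oc_iff G h3).trans ⟨?_, ?_⟩
    · rintro ⟨k, x, h1, h2, h4⟩
      exact ⟨k, x, ⟨h1, h2⟩, h4⟩
    · rintro ⟨k, x, ⟨h1, h2⟩, h4⟩
      exact ⟨k, x, h1, h2, h4⟩
  refine ⟨fun V _ G h3 => ⟨fun k x hx => cover_iff G h3 x hx.1 hx.2, key V G h3⟩, ?_⟩
  intro g ε hε
  constructor
  · intro h V _ H hH
    exact (key V H hH.cubic).1 (h V H (nocut_of H hH.conn))
  · intro h V _ G hG
    exact final g ε hε (fun V _ H h1 h2 h3 h4 h5 =>
      (key V H h1).2 (h V H ⟨h1, h2, h3, h4, h5⟩)) V G hG

end Pool.Agent.Results.MP_781dd6_co.SymmetricFlows
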